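import Mathlib
import Pool.Agent.Q213.Bes

open Finset Pool.Agent.Q213.Bes

namespace Pool.Agent.Results.MP_cdfc49_an.SecondDerivative

/-- The even entire function `G_{ν,n}` with `J_ν^{(n)}(z) = 2^{-n} (z/2)^{ν-n} G_{ν,n}(z)`. -/
noncomputable def G (ν : ℝ) (n : ℕ) (z : ℂ) : ℂ :=
  ∑' m : ℕ, (((-1) ^ m * (∏ j ∈ range n, (ν + 2 * m - j)) /
    (m.factorial * Real.Gamma (ν + m + 1)) : ℝ) : ℂ) * (z / 2) ^ (2 * m)

/-- The number of zeros of `f` in `S`, counted with multiplicity: the zero `z` contributes the pairs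
`(z, k)` with `k` below the order of vanishing of `f` at `z`. -/
noncomputable def zeroCount (f : ℂ → ℂ) (S : Set ℂ) : ℕ∞ :=
  {p : ℂ × ℕ | p.1 ∈ S ∧ (p.2 : ℕ∞) < analyticOrderAt f p.1}.encard

lemma G_eq (z : ℂ) : G (-1 / 10) 2 z = ((Real.Gamma (9 / 10))⁻¹ : ℝ) * Hf a2 (z ^ 2 / 4) := by
  rw [G, Hf, ← tsum_mul_left]
  refine tsum_congr (fun m => ?_)
  rw [gam, pow_mul, Finset.prod_range_succ, Finset.prod_range_succ, Finset.prod_range_zero, a2_eq]
  have h1 := (rp_pos c0_pos m).ne'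
  have h2 := gam_pos.ne'
  have h3 : (m.factorial : ℝ) ≠ 0 := by positivity
  have h4 : (-(z ^ 2 / 4)) ^ m = (-1) ^ m * ((z / 2) ^ 2) ^ m := by
    rw [← mul_pow]; congr 1; ring
  rw [h4]
  have h5 : ((-1) ^ m * (1 * (-1 / 10 + 2 * (m : ℝ) - (0 : ℕ)) * (-1 / 10 + 2 * (m : ℝ) - (1 : ℕ))) /
      ((m.factorial : ℝ) * (rp c0 m * Real.Gamma (9 / 10)))) =
      (Real.Gamma (9 / 10))⁻¹ * (((2 * (m : ℝ) - 11 / 10) * (2 * m - 1 / 10) / rp c0 m) / (m.factorial : ℝ)) * (-1) ^ m := by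
    push_cast
    field_simp
    ring
  rw [h5]
  push_cast
  ring

lemma G_diff : Differentiable ℂ (G (-1 / 10) 2) := by
  have h : G (-1 / 10) 2 = fun z => ((Real.Gamma (9 / 10))⁻¹ : ℝ) * Hf a2 (z ^ 2 / 4) := by
    funext z; exact G_eq z
  rw [h]
  have h2 : Differentiable ℂ (Hf a2) := Hf_diff a2_le (by norm_num)
  have h3 : Differentiable ℂ (fun z : ℂ => Hf a2 (z ^ 2 / 4)) :=
    h2.comp (by fun_prop : Differentiable ℂ (fun z : ℂ => z ^ 2 / 4))
  exact h3.const_mul _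

lemma G_zero {z : ℂ} (h : G (-1 / 10) 2 z = 0) : z.im = 0 := by
  rw [G_eq, mul_eq_zero] at h
  have h2 : ((((Real.Gamma (9 / 10))⁻¹ : ℝ)) : ℂ) ≠ 0 := by
    exact_mod_cast (inv_pos.2 gam_pos).ne'
  have h3 := h.resolve_left h2
  have h4 := Hf2_real h3
  by_contra hy
  have h5 : (z ^ 2 / 4).im = z.re * z.im / 2 := by
    have : z ^ 2 / 4 = ((1 / 4 : ℝ) : ℂ) * (z * z) := by push_cast; ring
    rw [this, Complex.im_ofReal_mul, Complex.mul_im]
    ring
  have h6 : z.re = 0 := by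
    rw [h5] at h4
    have : z.re * z.im = 0 := by linarith
    exact (mul_eq_zero.1 this).resolve_right hy
  have h7 : z ^ 2 / 4 = -((z.im ^ 2 / 4 : ℝ) : ℂ) := by
    have h8 : z = z.im * Complex.I := by
      conv_lhs => rw [← Complex.re_add_im z, h6]
      simp
    rw [h8, mul_pow, Complex.I_sq]
    push_cast
    simp
    ring
  rw [h7] at h3
  exact Hf2_neg _ (by positivity) h3

/-- The second derivative of the Bessel function `J_{-1/10}` has only real zeros, although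
`-1/10` lies in the interval `(n - 2 s - 1, n - 2 s)` for `n = 2`, `s = 1`; hence the answer to Q1
is negative. -/
theorem result :
    Differentiable ℂ (G (-1 / 10) 2) ∧
    (∀ z : ℂ, G (-1 / 10) 2 z = 0 → z.im = 0) ∧
    zeroCount (G (-1 / 10) 2) {z | z.im ≠ 0} = 0 ∧
    ¬ (∀ (n s : ℕ) (ν : ℝ), 1 ≤ s → (n : ℝ) - 2 * s - 1 < ν → ν < (n : ℝ) - 2 * s →
        zeroCount (G ν n) {z | z.im ≠ 0} = 4 * s ∧
          ∀ y : ℝ, y ≠ 0 → G ν n (y * Complex.I) ≠ 0) := by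
  have h0 : zeroCount (G (-1 / 10) 2) {z | z.im ≠ 0} = 0 := by
    rw [zeroCount, Set.encard_eq_zero, Set.eq_empty_iff_forall_notMem]
    rintro ⟨z, k⟩ ⟨h1, h2⟩
    exact h1 (G_zero (analyticOrderAt_ne_zero.1 (pos_of_gt h2).ne').2)
  refine ⟨G_diff, fun z => G_zero, h0, ?_⟩
  intro H
  have h1 := (H 2 1 (-1 / 10) le_rfl (by norm_num) (by norm_num)).1
  rw [h0] at h1
  norm_num at h1

end Pool.Agent.Results.MP_cdfc49_an.SecondDerivative
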